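import Pool.Agent.H79.MC.Targets

/-!
# DIG: the decoding expression
-/

set_option autoImplicit false

namespace Pool.Agent.H91.MC

open Pool.Agent.H79.MC

theorem pf_dig : T_DIG := by
  intro a g q t s ht htq hbits
  have key : ∀ c, c ≤ a → ev s (posE (a + 1) c) = g / 2 ^ ((a + 1) * t) % 2 ^ c ∧
      mx s (posE (a + 1) c) ≤ max (2 ^ a) ((a + 1) * q + a + 1) := by
    intro c
    induction c with
    | zero =>
      intro _
      refine ⟨?_, ?_⟩
      · simp [posE, ev, Nat.mod_one]
      · simp [posE, mx]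
    | succ c ih =>
      intro hc
      obtain ⟨ih1, ih2⟩ := ih (by omega)
      have hidx : (a + 1) * t + c < (a + 1) * q := by
        have h1 : (a + 1) * (t + 1) ≤ (a + 1) * q := Nat.mul_le_mul_left _ htq
        rw [Nat.mul_succ] at h1
        omega
      have hcell : s.a 4 ((a + 1) * t + c) = g / 2 ^ ((a + 1) * t) / 2 ^ c % 2 := by
        rw [hbits _ hidx]
        unfold bits
        rw [Nat.div_div_eq_div_mul, ← pow_add]
      have hb1 : s.a 4 ((a + 1) * t + c) ≤ 1 := by
        rw [hcell]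
        have := Nat.mod_lt (g / 2 ^ ((a + 1) * t) / 2 ^ c) (show 0 < 2 by norm_num)
        omega
      have hev : ev s (posE (a + 1) (c + 1)) = g / 2 ^ ((a + 1) * t) % 2 ^ (c + 1) := by
        show ev s (posE (a + 1) c) + 2 ^ c * s.a 4 ((a + 1) * s.r 8 + c) = _
        rw [ih1, ht, hcell, Nat.mod_pow_succ]
      refine ⟨hev, ?_⟩
      have hpow : 2 ^ c ≤ 2 ^ a := Nat.pow_le_pow_right (by norm_num) (by omega)
      have hpow1 : 1 ≤ 2 ^ a := Nat.one_le_two_pow
      have hval : ev s (posE (a + 1) (c + 1)) ≤ 2 ^ a := by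
        rw [hev]
        have h1 : g / 2 ^ ((a + 1) * t) % 2 ^ (c + 1) < 2 ^ (c + 1) :=
          Nat.mod_lt _ (by positivity)
        have h2 : 2 ^ (c + 1) ≤ 2 ^ a := Nat.pow_le_pow_right (by norm_num) hc
        omega
      have hval' : ev s (posE (a + 1) c) + 2 ^ c * s.a 4 ((a + 1) * s.r 8 + c) ≤ 2 ^ a := hval
      have hq : q ≤ (a + 1) * q := Nat.le_mul_of_pos_left _ (by omega)
      have hmul : 2 ^ c * s.a 4 ((a + 1) * t + c) ≤ 2 ^ a := by
        calc 2 ^ c * s.a 4 ((a + 1) * t + c) ≤ 2 ^ c * 1 := Nat.mul_le_mul_left _ hb1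
          _ ≤ 2 ^ a := by rw [mul_one]; exact hpow
      show max (max (mx s (posE (a + 1) c))
        (max (max (2 ^ c) (max (max (max (max (a + 1) (s.r 8)) ((a + 1) * s.r 8)) c |>.max
          ((a + 1) * s.r 8 + c)) (s.a 4 ((a + 1) * s.r 8 + c))))
          (2 ^ c * s.a 4 ((a + 1) * s.r 8 + c))))
        (ev s (posE (a + 1) c) + 2 ^ c * s.a 4 ((a + 1) * s.r 8 + c)) ≤ _
      rw [ht] at hval' ⊢
      refine max_le (max_le ih2 (max_le (max_le ?_ (max_le (max_le (max_le (max_le (max_le ?_ ?_)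
        ?_) ?_) ?_) ?_)) ?_)) ?_
      · exact le_max_of_le_left hpow
      · exact le_max_of_le_right (by omega)
      · exact le_max_of_le_right (by omega)
      · exact le_max_of_le_right (by omega)
      · exact le_max_of_le_right (by omega)
      · exact le_max_of_le_right (by omega)
      · exact le_max_of_le_left (hb1.trans hpow1)
      · exact le_max_of_le_left hmul
      · exact le_max_of_le_left hval'
  obtain ⟨k1, k2⟩ := key a le_rfl
  exact ⟨k1, Nat.mod_lt _ (by positivity), k2⟩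

end Pool.Agent.H91.MC
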