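import Pool.Agent.H79.MC.Targets2

/-!
# TH2: robust graphs
-/

set_option autoImplicit false

namespace Pool.Agent.H91.MC

open Pool.Agent.H79.MC

lemma cutSize_le_edges {n : ℕ} (G : SimpleGraph (Fin n)) (X : Set (Fin n)) :
    cutSize G X ≤ edges G := by
  unfold cutSize edges
  exact Set.ncard_le_ncard (fun e he => he.1) (Set.toFinite _)

theorem pf_th2 (hTH1 : T_TH1) (hROB : T_ROB) (_hMCB : T_MCB) : T_TH2 := by
  intro κ hκ
  obtain ⟨η, c, hη, hc, hrob⟩ := hROB κ hκ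
  obtain ⟨γ, C, p, hγ, hs⟩ := hTH1 η c hη hc
  refine ⟨γ, C, p, hγ, fun n G => ?_⟩
  obtain ⟨t, s, h1, h2, h3⟩ := hs n G
  refine ⟨t, s, h1, h2, fun hR => ?_⟩
  by_cases he : 1 ≤ edges G
  · exact h3 (hrob n G he hR)
  · intro Y
    have := cutSize_le_edges G Y
    omega

end Pool.Agent.H91.MC
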