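import Pool.Agent.H8.MC.Targets

/-!
# Excluded minors and excluded subgraphs
-/

set_option autoImplicit false

namespace Pool.Agent.H91.MC

open Pool.Agent.H8.MC Pool.Agent.H69.VR Pool.Agent.H8.VR Pool.Agent.H69.Sp

/-- a finite list of definable properties of graphs: none of them holds -/
theorem none_of_list {ι : Type} (q : ι → (n : ℕ) → SimpleGraph (Fin n) → Prop)
    (h : ∀ i, ∃ χ : MS, BinZero χ ∧ ∀ (n : ℕ) (P : ℕ → Fin n → Prop) (R : ℕ → Fin n → Fin n → Prop)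
      (G : SimpleGraph (Fin n)), (∀ a b, R 0 a b ↔ G.Adj a b) →
        ∀ (e : ℕ → Fin n) (V : ℕ → Set (Fin n)), χ.Sat P R e V ↔ q i n G) (L : List ι) :
    ∃ χ : MS, BinZero χ ∧ ∀ (n : ℕ) (P : ℕ → Fin n → Prop) (R : ℕ → Fin n → Fin n → Prop)
      (G : SimpleGraph (Fin n)), (∀ a b, R 0 a b ↔ G.Adj a b) →
        ∀ (e : ℕ → Fin n) (V : ℕ → Set (Fin n)), χ.Sat P R e V ↔ ∀ i ∈ L, ¬ q i n G := by
  induction L with
  | nil =>
    refine ⟨MS.eq 0 0, trivial, ?_⟩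
    intro n P R G _ e V
    simp [MS.Sat]
  | cons i L ih =>
    obtain ⟨χ, h1, h2⟩ := ih
    obtain ⟨ψ, h3, h4⟩ := h i
    refine ⟨MS.and (MS.neg ψ) χ, ⟨h3, h1⟩, ?_⟩
    intro n P R G hG e V
    have e1 := h2 n P R G hG e V
    have e2 := h4 n P R G hG e V
    simp only [MS.Sat, e1, e2, List.forall_mem_cons]

/-- a minor of a subgraph is a minor -/
theorem minor_of_sub {W : Type} {m n : ℕ} {K : SimpleGraph W} {H : SimpleGraph (Fin m)}
    {G : SimpleGraph (Fin n)} {f : Fin m → Fin n} (hf : Function.Injective f)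
    (hH : ∀ a b, H.Adj a b → G.Adj (f a) (f b)) (h : Minor K H) : Minor K G := by
  obtain ⟨B, h1, h2, h3⟩ := h
  refine ⟨fun w => f '' B w, ?_, ?_, ?_⟩
  · intro w
    let g : H.induce (B w) →g G.induce (f '' B w) :=
      { toFun := fun x => ⟨f x.1, Set.mem_image_of_mem f x.2⟩
        map_rel' := fun {a b} hab => hH a.1 b.1 hab }
    refine (h1 w).map g ?_
    rintro ⟨y, x, hx, rfl⟩
    exact ⟨⟨x, hx⟩, rfl⟩
  · intro w w' hw
    exact (Set.disjoint_image_iff hf).2 (h2 w w' hw)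
  · intro w w' hw
    obtain ⟨x, hx, y, hy, hxy⟩ := h3 w w' hw
    exact ⟨f x, Set.mem_image_of_mem f hx, f y, Set.mem_image_of_mem f hy, hH x y hxy⟩

theorem pf_exc (hMFM : T_MFM) (hMFS : T_MFS) : T_EXC := by
  intro Hs Fs
  constructor
  · obtain ⟨χ, h1, h2⟩ := none_of_list (fun (H : Σ n, SimpleGraph (Fin n)) n G => Minor H.2 G)
      (fun H => by
        obtain ⟨χ, a, b⟩ := hMFM H.1 H.2
        exact ⟨χ, a, fun n P R G hG e V => b (Fin n) P R G hG e V⟩) Hs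
    obtain ⟨ψ, h3, h4⟩ := none_of_list (fun (F : Σ n, SimpleGraph (Fin n)) n G =>
      ∃ f : Fin F.1 → Fin n, Function.Injective f ∧ ∀ a b, F.2.Adj a b → G.Adj (f a) (f b))
      (fun F => by
        obtain ⟨χ, a, b⟩ := hMFS F.1 F.2
        exact ⟨χ, a, fun n P R G hG e V => b (Fin n) P R G hG e V⟩) Fs
    refine ⟨MS.and χ ψ, ⟨h1, h3⟩, ?_⟩
    intro n P R G hn hG
    constructor
    · intro hs
      have h := hs (fun _ => ⟨0, hn⟩) (fun _ => ∅)
      exact ⟨(h2 n P R G hG _ _).1 h.1, (h4 n P R G hG _ _).1 h.2⟩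
    · rintro ⟨ha, hb⟩ e V
      exact ⟨(h2 n P R G hG e V).2 ha, (h4 n P R G hG e V).2 hb⟩
  · rintro m n H G ⟨ha, hb⟩ ⟨f, hf, hH⟩
    refine ⟨fun K hK hm => ha K hK (minor_of_sub hf hH hm), ?_⟩
    rintro F hF ⟨g, hg, hgF⟩
    exact hb F hF ⟨f ∘ g, hf.comp hg, fun a b hab => hH _ _ (hgF a b hab)⟩

end Pool.Agent.H91.MC
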