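import Pool.Agent.H8.MC.Targets

/-!
# Having a given minor is definable in monadic second-order logic
-/

set_option autoImplicit false

namespace Pool.Agent.H91.MC

open Pool.Agent.H8.MC Pool.Agent.H69.VR Pool.Agent.H8.VR Pool.Agent.H69.Sp

/-- equivalent properties are definable together -/
theorem MD.of_iff {p q : (A : Type) → (ℕ → A → Prop) → (A → A → Prop) → (ℕ → A) → (ℕ → Set A) → Prop}
    (hq : MD q) (h : ∀ A P E e V, p A P E e V ↔ q A P E e V) : MD p := by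
  obtain ⟨φ, h1, h2⟩ := hq
  exact ⟨φ, h1, fun A P R e V => (h2 A P R e V).trans (h A P (R 0) e V).symm⟩

/-- the connectedness of the set `S` for the relation `E` -/
def Conn {A : Type} (E : A → A → Prop) (S : Set A) : Prop :=
  (∃ a, a ∈ S) ∧ ∀ Y : Set A, (∃ a, a ∈ Y ∧ a ∈ S) →
    (∀ a b, a ∈ Y → a ∈ S → b ∈ S → E a b → b ∈ Y) → ∀ a, a ∈ S → a ∈ Y

theorem md_conn (hM : T_MSC) (h w : ℕ) (hw : w ≠ h) : MD fun _ _ E _ V => Conn E (V w) := by
  obtain ⟨un, bi, eq, mem, cst, neg, and, or, imp, ex, all, exS, allS, fall, fex, exF, exFS⟩ := hM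
  refine MD.of_iff (and _ _ (ex 0 _ (mem 0 w)) (allS h _ (imp _ _
    (ex 0 _ (and _ _ (mem 0 h) (mem 0 w))) (imp _ _ (all 0 _ (all 1 _ (imp _ _ (mem 0 h)
      (imp _ _ (mem 0 w) (imp _ _ (mem 1 w) (imp _ _ (bi 0 1) (mem 1 h)))))))
        (all 0 _ (imp _ _ (mem 0 w) (mem 0 h))))))) ?_
  intro A P E e V
  simp [Conn, Function.update_of_ne hw]

theorem md_disj (hM : T_MSC) (w w' : ℕ) :
    MD fun _ _ _ _ V => Disjoint (V w) (V w') := by
  obtain ⟨un, bi, eq, mem, cst, neg, and, or, imp, ex, all, exS, allS, fall, fex, exF, exFS⟩ := hM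
  refine MD.of_iff (all 0 _ (imp _ _ (mem 0 w) (neg _ (mem 0 w')))) ?_
  intro A P E e V
  simp [Set.disjoint_left]

theorem md_edge (hM : T_MSC) (w w' : ℕ) :
    MD fun _ _ E _ V => ∃ x ∈ V w, ∃ y ∈ V w', E x y := by
  obtain ⟨un, bi, eq, mem, cst, neg, and, or, imp, ex, all, exS, allS, fall, fex, exF, exFS⟩ := hM
  refine MD.of_iff (ex 0 _ (and _ _ (mem 0 w) (ex 1 _ (and _ _ (mem 1 w') (bi 0 1))))) ?_
  intro A P E e V
  simp

theorem pf_mfm (hM : T_MSC) (hC : T_CON) : T_MFM := by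
  intro h H
  have key : MD fun A _ E _ _ => ∃ f : Fin h → Set A, (∀ w, Conn E (f w)) ∧
      (∀ w w', w ≠ w' → Disjoint (f w) (f w')) ∧
        ∀ w w', H.Adj w w' → ∃ x ∈ f w, ∃ y ∈ f w', E x y := by
    have hM' := hM
    obtain ⟨un, bi, eq, mem, cst, neg, and, or, imp, ex, all, exS, allS, fall, fex, exF, exFS⟩ := hM
    have h1 : MD fun _ _ E _ V => (∀ w : Fin h, Conn E (V w.val)) ∧
        (∀ w w' : Fin h, w ≠ w' → Disjoint (V w.val) (V w'.val)) ∧
          ∀ w w' : Fin h, H.Adj w w' → ∃ x ∈ V w.val, ∃ y ∈ V w'.val, E x y :=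
      and _ _ (fall (Fin h) _ fun w => md_conn hM' h w.val w.isLt.ne) (and _ _
        (fall (Fin h) _ fun w => fall (Fin h) _ fun w' =>
          imp _ _ (cst (w ≠ w')) (md_disj hM' w.val w'.val))
        (fall (Fin h) _ fun w => fall (Fin h) _ fun w' =>
          imp _ _ (cst (H.Adj w w')) (md_edge hM' w.val w'.val)))
    refine MD.of_iff (exFS h _ h1) ?_
    intro A P E e V
    simp
  obtain ⟨χ, h1, h2⟩ := key
  refine ⟨χ, h1, ?_⟩
  intro A P R G hG e V
  rw [h2]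
  have hR : R 0 = G.Adj := by
    funext a b
    exact propext (hG a b)
  rw [hR]
  unfold Minor
  have hcon : ∀ S : Set A, Conn G.Adj S ↔ (G.induce S).Connected := by
    intro S
    rw [hC A G S]
    rfl
  constructor
  · rintro ⟨f, a, b, c⟩
    exact ⟨f, fun w => (hcon _).1 (a w), b, c⟩
  · rintro ⟨f, a, b, c⟩
    exact ⟨f, fun w => (hcon _).2 (a w), b, c⟩

end Pool.Agent.H91.MC
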